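import Mathlib

namespace Pool.Agent.Results.MP_f66a6a_an.Unbounded

open Filter Topology

/-- `x` (with `x n` standing for `x_{n-2}`, `n ≥ 0`) is a positive solution of
`x_{n+1} = (α + x_n) / x_{n-2}`. -/
def IsSolution (α : ℝ) (x : ℕ → ℝ) : Prop :=
  (∀ n, 0 < x n) ∧ ∀ n, x (n + 3) = (α + x (n + 2)) / x n

/-- One step on triples of consecutive terms. -/
noncomputable def T (α : ℝ) (p : ℝ × ℝ × ℝ) : ℝ × ℝ × ℝ := (p.2.1, p.2.2, (α + p.2.2) / p.1)

/-- The solution with given initial values. -/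
noncomputable def sol (α a b c : ℝ) (n : ℕ) : ℝ := ((T α)^[n] (a, b, c)).1

lemma sol_isSolution {α a b c : ℝ} (hα : 0 < α) (ha : 0 < a) (hb : 0 < b) (hc : 0 < c) :
    IsSolution α (sol α a b c) := by
  have h1 : ∀ n, 0 < ((T α)^[n] (a, b, c)).1 ∧ 0 < ((T α)^[n] (a, b, c)).2.1 ∧
      0 < ((T α)^[n] (a, b, c)).2.2 := by
    intro n
    induction n with
    | zero => exact ⟨ha, hb, hc⟩
    | succ n ih =>
      rw [Function.iterate_succ_apply']
      obtain ⟨h1, h2, h3⟩ := ih
      refine ⟨h2, h3, ?_⟩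
      unfold T
      positivity
  refine ⟨fun n => (h1 n).1, fun n => ?_⟩
  unfold sol
  rw [show n + 3 = (n + 2) + 1 from rfl, Function.iterate_succ_apply',
    show n + 2 = (n + 1) + 1 from rfl, Function.iterate_succ_apply', Function.iterate_succ_apply']
  rfl

/-- The logarithm of `α + x` is `max 0 (log x)` up to a bounded error. -/
lemma log_add {α x : ℝ} (hα : 0 < α) (hx : 0 < x) :
    |Real.log (α + x) - max 0 (Real.log x)| ≤ |Real.log α| + Real.log 2 := by
  have h2 : 0 < Real.log 2 := Real.log_pos (by norm_num)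
  have ha := le_abs_self (Real.log α)
  have ha' := neg_abs_le (Real.log α)
  have hn := abs_nonneg (Real.log α)
  rw [abs_le]
  constructor
  · rcases le_total 0 (Real.log x) with h | h
    · rw [max_eq_right h]
      have : Real.log x ≤ Real.log (α + x) := Real.log_le_log hx (by linarith)
      linarith
    · rw [max_eq_left h]
      have : Real.log α ≤ Real.log (α + x) := Real.log_le_log hα (by linarith)
      linarith
  · have hm : Real.log (α + x) ≤ Real.log 2 + max (Real.log α) (Real.log x) := by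
      rcases le_total α x with h | h
      · have h1 : Real.log (α + x) ≤ Real.log (2 * x) := Real.log_le_log (by linarith) (by linarith)
        rw [Real.log_mul (by norm_num) hx.ne'] at h1
        linarith [le_max_right (Real.log α) (Real.log x)]
      · have h1 : Real.log (α + x) ≤ Real.log (2 * α) := Real.log_le_log (by linarith) (by linarith)
        rw [Real.log_mul (by norm_num) hα.ne'] at h1
        linarith [le_max_left (Real.log α) (Real.log x)]
    have h3 : max (Real.log α) (Real.log x) ≤ |Real.log α| + max 0 (Real.log x) := by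
      apply max_le
      · linarith [le_max_left 0 (Real.log x)]
      · linarith [le_max_right 0 (Real.log x)]
    linarith

/-- The state at the beginning of a block. -/
def State (η : ℝ) (L : ℕ → ℝ) (n : ℕ) (S : ℝ) : Prop :=
  L n ≤ η ∧ L (n + 1) ≤ -(44 * η) ∧ L (n + 2) ≤ η ∧ S ≤ -(L n + L (n + 1) + L (n + 2))

lemma step {η : ℝ} (hη : 0 < η) {L : ℕ → ℝ}
    (hL : ∀ n, |L (n + 3) - (max 0 (L (n + 2)) - L n)| ≤ η) {n : ℕ} {S : ℝ}
    (hS : 88 * η ≤ S) (h : State η L n S) :
    S - 3 * η ≤ L (n + 5) ∧ ∃ n', State η L n' (3 / 2 * S) := by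
  obtain ⟨ha, hb, hc, hs⟩ := h
  have e1 := abs_le.mp (hL n)
  have e2 := abs_le.mp (hL (n + 1))
  have e3 := abs_le.mp (hL (n + 2))
  have e4 := abs_le.mp (hL (n + 3))
  have e5 := abs_le.mp (hL (n + 4))
  have e6 := abs_le.mp (hL (n + 5))
  have e7 := abs_le.mp (hL (n + 6))
  have e8 := abs_le.mp (hL (n + 7))
  simp only [show n + 1 + 3 = n + 4 by ring, show n + 1 + 2 = n + 3 by ring] at e2
  simp only [show n + 2 + 3 = n + 5 by ring, show n + 2 + 2 = n + 4 by ring] at e3
  simp only [show n + 3 + 3 = n + 6 by ring, show n + 3 + 2 = n + 5 by ring] at e4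
  simp only [show n + 4 + 3 = n + 7 by ring, show n + 4 + 2 = n + 6 by ring] at e5
  simp only [show n + 5 + 3 = n + 8 by ring, show n + 5 + 2 = n + 7 by ring] at e6
  simp only [show n + 6 + 3 = n + 9 by ring, show n + 6 + 2 = n + 8 by ring] at e7
  simp only [show n + 7 + 3 = n + 10 by ring, show n + 7 + 2 = n + 9 by ring] at e8
  obtain ⟨a, ha'⟩ : ∃ a, L n = -a := ⟨-L n, by ring⟩
  obtain ⟨b, hb'⟩ : ∃ b, L (n + 1) = -b := ⟨-L (n + 1), by ring⟩
  obtain ⟨c, hc'⟩ : ∃ c, L (n + 2) = -c := ⟨-L (n + 2), by ring⟩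
  rw [ha'] at ha
  rw [hb'] at hb
  rw [hc'] at hc
  rw [ha', hb', hc'] at hs
  rw [ha', hc'] at e1
  rw [hb'] at e2
  rw [hc'] at e3
  -- L (n+3)
  have m1 : 0 ≤ max 0 (-c) ∧ max 0 (-c) ≤ η := ⟨le_max_left _ _, max_le hη.le hc⟩
  have l1 : a - η ≤ L (n + 3) ∧ L (n + 3) ≤ a + 2 * η := by
    constructor <;> linarith [m1.1, m1.2, e1.1, e1.2]
  have m2 : a - η ≤ max 0 (L (n + 3)) ∧ max 0 (L (n + 3)) ≤ a + 2 * η ∧
      L (n + 3) ≤ max 0 (L (n + 3)) ∧ max 0 (L (n + 3)) ≤ L (n + 3) + 2 * η := by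
    refine ⟨l1.1.trans (le_max_right _ _), max_le (by linarith) l1.2, le_max_right _ _,
      max_le (by linarith [l1.1]) (by linarith)⟩
  have l2 : a + b - 2 * η ≤ L (n + 4) ∧ L (n + 4) ≤ a + b + 3 * η := by
    constructor <;> linarith [m2.1, m2.2.1, e2.1, e2.2]
  have m3 : max 0 (L (n + 4)) = L (n + 4) := max_eq_right (by linarith [l2.1])
  rw [m3] at e3
  have l3 : a + b + c - 3 * η ≤ L (n + 5) := by linarith [l2.1, e3.1]
  have m4 : max 0 (L (n + 5)) = L (n + 5) := max_eq_right (by linarith)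
  rw [m4] at e4
  have l4 : b + c - 3 * η ≤ L (n + 6) ∧ L (n + 6) ≤ b + c + 5 * η := by
    constructor <;> linarith [m2.2.2.1, m2.2.2.2, e2.1, e2.2, e3.1, e3.2, e4.1, e4.2]
  have m5 : max 0 (L (n + 6)) = L (n + 6) := max_eq_right (by linarith [l4.1])
  rw [m5] at e5
  have l5 : c - a - 7 * η ≤ L (n + 7) ∧ L (n + 7) ≤ c - a + 8 * η := by
    constructor <;> linarith [l4.1, l4.2, l2.1, l2.2, e5.1, e5.2]
  refine ⟨by linarith, ?_⟩
  rcases le_or_gt (L (n + 7)) 0 with h7 | h7
  · -- four positive terms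
    rw [max_eq_left h7] at e6
    have l6 : L (n + 8) ≤ -(a + b + c) + 4 * η := by linarith [e6.2, l3]
    have m7 : max 0 (L (n + 8)) = 0 := max_eq_left (by linarith)
    rw [m7] at e7
    have l7 : L (n + 9) ≤ -(b + c) + 4 * η := by linarith [e7.2, l4.1]
    refine ⟨n + 7, ?_, ?_, ?_, ?_⟩
    · linarith
    · rw [show n + 7 + 1 = n + 8 by ring]; linarith
    · rw [show n + 7 + 2 = n + 9 by ring]; linarith
    · rw [show n + 7 + 1 = n + 8 by ring, show n + 7 + 2 = n + 9 by ring]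
      linarith [l5.1, l5.2]
  · -- five positive terms
    rw [max_eq_right h7.le] at e6
    have l6 : L (n + 8) ≤ -(2 * a + b) + 6 * η := by
      linarith [e6.2, e5.1, e4.2, e4.1, l1.1, l2.1]
    have m7 : max 0 (L (n + 8)) = 0 := max_eq_left (by linarith)
    rw [m7] at e7
    have l7 : L (n + 9) ≤ -(b + c) + 4 * η := by linarith [e7.2, l4.1]
    have m8 : max 0 (L (n + 9)) = 0 := max_eq_left (by linarith)
    rw [m8] at e8
    have l8 : L (n + 10) ≤ -(c - a) + 8 * η ∧ L (n + 10) ≤ η := by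
      constructor <;> linarith [e8.2, l5.1]
    refine ⟨n + 8, ?_, ?_, ?_, ?_⟩
    · linarith
    · rw [show n + 8 + 1 = n + 9 by ring]; linarith [l5.2]
    · rw [show n + 8 + 2 = n + 10 by ring]; linarith
    · rw [show n + 8 + 1 = n + 9 by ring, show n + 8 + 2 = n + 10 by ring]
      linarith [l5.1, l5.2, l8.1]

/-- For every `α > 0` the recurrence `x_{n+1} = (α + x_n)/x_{n-2}` has an unbounded positive
solution. -/
theorem result (α : ℝ) (hα : 0 < α) :
    ∃ x : ℕ → ℝ, IsSolution α x ∧ ¬ BddAbove (Set.range x) := by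
  obtain ⟨η, hηe⟩ : ∃ η, η = |Real.log α| + Real.log 2 := ⟨_, rfl⟩
  have hη : 0 < η := by
    have h2 : 0 < Real.log 2 := Real.log_pos (by norm_num)
    rw [hηe]; positivity
  have hsol := sol_isSolution (a := 1) (b := Real.exp (-(88 * η))) (c := 1) hα one_pos
    (Real.exp_pos _) one_pos
  set x := sol α 1 (Real.exp (-(88 * η))) 1 with hx
  refine ⟨x, hsol, ?_⟩
  obtain ⟨hpos, hrec⟩ := hsol
  have hL : ∀ n, |Real.log (x (n + 3)) - (max 0 (Real.log (x (n + 2))) - Real.log (x n))| ≤ η := by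
    intro n
    have h1 := log_add hα (hpos (n + 2))
    rw [hrec n, Real.log_div (by have := hpos (n + 2); positivity) (hpos n).ne', hηe]
    have e : Real.log (α + x (n + 2)) - Real.log (x n) -
        (max 0 (Real.log (x (n + 2))) - Real.log (x n)) =
        Real.log (α + x (n + 2)) - max 0 (Real.log (x (n + 2))) := by ring
    rw [e]; exact h1
  have h0 : State η (fun n => Real.log (x n)) 0 (88 * η) := by
    have x0 : x 0 = 1 := rfl
    have x1 : x 1 = Real.exp (-(88 * η)) := rfl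
    have x2 : x 2 = 1 := rfl
    unfold State
    simp only [zero_add]
    rw [x0, x1, x2, Real.log_one, Real.log_exp]
    refine ⟨hη.le, by linarith, hη.le, by linarith⟩
  have hind : ∀ k : ℕ, ∃ n, State η (fun n => Real.log (x n)) n ((3 / 2) ^ k * (88 * η)) := by
    intro k
    induction k with
    | zero => exact ⟨0, by simpa using h0⟩
    | succ k ih =>
      obtain ⟨n, hn⟩ := ih
      have h1 : (1 : ℝ) ≤ (3 / 2) ^ k := one_le_pow₀ (by norm_num)
      obtain ⟨-, n', hn'⟩ := step hη hL (by nlinarith) hn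
      refine ⟨n', ?_⟩
      rw [pow_succ]
      have e : (3 / 2 : ℝ) ^ k * (3 / 2) * (88 * η) = 3 / 2 * ((3 / 2) ^ k * (88 * η)) := by ring
      rw [e]; exact hn'
  rintro ⟨C, hC⟩
  have hCpos : 0 < C := (hpos 0).trans_le (hC ⟨0, rfl⟩)
  obtain ⟨k, hk⟩ := pow_unbounded_of_one_lt ((Real.log C + 3 * η) / (88 * η))
    (show (1 : ℝ) < 3 / 2 by norm_num)
  rw [div_lt_iff₀ (by positivity)] at hk
  obtain ⟨n, hn⟩ := hind k
  have h1 : (1 : ℝ) ≤ (3 / 2) ^ k := one_le_pow₀ (by norm_num)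
  obtain ⟨h2, -⟩ := step hη hL (by nlinarith) hn
  have h3 : Real.log (x (n + 5)) ≤ Real.log C := Real.log_le_log (hpos _) (hC ⟨_, rfl⟩)
  linarith

end Pool.Agent.Results.MP_f66a6a_an.Unbounded
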